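import Pool.Agent.W484.CK.Motivic

/-!
# Definitions for `MP_b197b4_nt.HyperplaneCoverings`
-/

set_option autoImplicit false

open Finset Polynomial CategoryTheory AlgebraicGeometry

namespace Pool.Agent.N876.TW4

open Pool.Agent.H914 Pool.Agent.H914.VarClass Pool.Agent.H914.VarClass.Obj Pool.Agent.W492.BB
  Pool.Agent.W484.CK

/-- A cyclic covering `w ^ N = ∏ l_k (x) ^ a_k` of the projective space of dimension `n`, and a root of
unity `z`. -/
structure Covering (κ : Type) [Field κ] : Type where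
  N : ℕ
  n : ℕ
  s : ℕ
  l : Fin s → Fin (n + 1) → κ
  a : Fin s → ℕ
  z : κ

/-- `z` has order `N ≥ 2`, the exponents are prime to `N` and their sum is divisible by `N`. -/
structure Covering.IsAdmissible {κ : Type} [Field κ] (X : Covering κ) : Prop where
  two_le : 2 ≤ X.N
  root : IsPrimitiveRoot X.z X.N
  coprime : ∀ k, (X.a k).Coprime X.N
  dvd : X.N ∣ ∑ k, X.a k

/-- The value of the form `∏ l_k ^ a_k` at a vector with coordinates in `L`. -/
def Covering.value {κ : Type} [Field κ] (X : Covering κ) (L : Type) [Field L] [Algebra κ L]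
    (x : Fin (X.n + 1) → L) : L :=
  ∏ k, (∑ t, algebraMap κ L (X.l k t) * x t) ^ X.a k

/-- The number of vectors over `L` where the form is not zero. -/
noncomputable def Covering.openCount {κ : Type} [Field κ] (X : Covering κ) (L : Type) [Field L]
    [Algebra κ L] : ℕ :=
  Set.ncard {x : Fin (X.n + 1) → L | X.value L x ≠ 0}

/-- The number of vectors over `L` where the form is not zero and its power with the exponent
`(|L| - 1) / N` is `z ^ i`. -/
noncomputable def Covering.fixCount {κ : Type} [Field κ] (X : Covering κ) (L : Type) [Field L]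
    [Fintype L] [Algebra κ L] (i : ℕ) : ℕ :=
  Set.ncard {x : Fin (X.n + 1) → L | X.value L x ≠ 0 ∧
    (X.value L x) ^ ((Fintype.card L - 1) / X.N) = algebraMap κ L X.z ^ i}

/-- `T` is the part without invariants of the cohomology of degree `n` of a smooth projective model
of the covering, with the Frobenius `Φ` and the generator `g` of the covering group. The trace
of `Φ ^ [L : κ] g ^ i` is up to the sign the difference of the number of fixed points over the open
set `∏ l_k ≠ 0` of projective space (`N` points over each point where the form has the power residue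
symbol `z ^ i`) and of the number of the points of this open set. -/
structure IsCyclicCovering {κ : Type} [Field κ] (X : Covering κ) {K T : Type} [Field K]
    [AddCommGroup T] [Module K T] (Φ g : Module.End K T) : Prop where
  commute : Commute Φ g
  order : g ^ X.N = 1
  invariants : ∀ t, g t = t → t = 0
  lefschetz : ∀ (L : Type) [Field L] [Fintype L] [Algebra κ L] (i : ℕ),
    ((Fintype.card L : K) - 1) *
        ((-1) ^ X.n * LinearMap.trace K T (Φ ^ Module.finrank κ L * g ^ i)) =
      (X.N : K) * (X.fixCount L i : K) - (X.openCount L : K)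

/-- The mean over `j, c j, …, c ^ (f - 1) j` of the sum of the fractional parts of `j a_k / N`. -/
def Covering.weight {κ : Type} [Field κ] (X : Covering κ) (c f j : ℕ) : ℚ :=
  (∑ k, ∑ t ∈ range f, (((j * X.a k * c ^ t) % X.N : ℕ) : ℚ)) / (f * X.N)

/-- The condition on the exponents. -/
def IsSmall {κ : Type} [Field κ] {ι : Type} (X : ι → Covering κ) (c f N lam : ℕ) : Prop :=
  ∀ I : Finset ι, I.Nonempty → ∀ j : ι → ℕ, (∀ i ∈ I, ¬ (X i).N ∣ j i) →
    ∃ u : ℕ, u.Coprime N ∧
      ∑ i ∈ I, (X i).weight c f (u * j i) + (lam : ℚ) / 2 < ∑ i ∈ I, (((X i).n : ℚ) / 2 + 1)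

/-- The space `H` is generated by the subspace `P` (the classes of algebraic cycles) and a subspace `T`
which is stable under `Φ` (the Frobenius) and `g` (a generator of the covering group), `T` is the part
without invariants (`IsCyclicCovering`), and pure of weight `n`. The complex numbers enter by an
embedding `τ` of the coefficient field. -/
def IsCoveringCohomology {κ : Type} [Field κ] [Fintype κ] (C : Covering κ) {K H : Type} [Field K]
    [AddCommGroup H] [Module K H] (P : Submodule K H) (Φ g : Module.End K H) (τ : K →+* ℂ) : Prop :=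
  ∃ (T : Submodule K H) (hΦ : ∀ t ∈ T, Φ t ∈ T) (hg : ∀ t ∈ T, g t ∈ T), P ⊔ T = ⊤ ∧
    IsCyclicCovering C (Φ.restrict hΦ) (g.restrict hg) ∧
    ∀ α, Module.End.HasEigenvalue (Φ.restrict hΦ) α → ‖τ α‖ ^ 2 = (Fintype.card κ : ℝ) ^ C.n

/-- The images of the eigenvalues of `Φ` under the embedding `τ` of the coefficient field. -/
def eigenvalues {K H : Type} [Field K] [AddCommGroup H] [Module K H] (Φ : Module.End K H)
    (τ : K →+* ℂ) : Set ℂ :=
  {b | ∃ β : K, Φ.HasEigenvalue β ∧ τ β = b}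

/-- The conditions on a set `B` of complex numbers: they are algebraic with `|b| ^ 2 = q ^ j`, and
either `lam = 0` and the cyclotomic polynomial of order `N` is irreducible over the field generated
by `B`, or `B` is of level at most `lam`. -/
def IsGoodBase (q N lam : ℕ) (B : Set ℂ) : Prop :=
  (∀ b ∈ B, IsAlgebraic ℚ b ∧ ∃ j : ℕ, ‖b‖ ^ 2 = (q : ℝ) ^ j) ∧
    ((lam = 0 ∧ Irreducible (cyclotomic N (IntermediateField.adjoin ℚ B))) ∨
      ∀ b ∈ B, IsIntegral ℤ ((q : ℂ) ^ lam * b / starRingEnd ℂ b))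

/-- An endomorphism of an algebra as a linear map. -/
def ofHom {K H : Type} [Field K] [Ring H] [Algebra K H] (g : H →ₐ[K] H) : Module.End K H :=
  g.toLinearMap

/-- `IsCoveringCohomology` for endomorphisms of an algebra. -/
def IsCoveringAlgebra {κ : Type} [Field κ] [Fintype κ] (C : Covering κ) {K H : Type} [Field K]
    [Ring H] [Algebra K H] (P : Submodule K H) (φ g : H →ₐ[K] H) (τ : K →+* ℂ) : Prop :=
  IsCoveringCohomology C P (ofHom φ) (ofHom g) τ

/-- The images of the eigenvalues of an endomorphism of an algebra. -/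
def eigenvaluesOf {K H : Type} [Field K] [Ring H] [Algebra K H] (φ : H →ₐ[K] H) (τ : K →+* ℂ) :
    Set ℂ :=
  eigenvalues (ofHom φ) τ

/-- The images under `τ` of the products of the eigenvalues of an endomorphism of an algebra and
the roots of the polynomial `χ`. -/
def productsOf {K H : Type} [Field K] [CharZero K] [Ring H] [Algebra K H] (φ : H →ₐ[K] H)
    (χ : ℚ[X]) (τ : K →+* ℂ) : Set ℂ :=
  {b | ∃ β ρ : K, (ofHom φ).HasEigenvalue β ∧ aeval ρ χ = 0 ∧ τ (β * ρ) = b}

/-- The field `κ` has `c ^ f` elements, the coverings are admissible, `N` is a common multiple of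
their degrees, and `IsSmall` holds. -/
structure IsSmallSystem {κ : Type} [Field κ] [Fintype κ] {ι : Type} (C : ι → Covering κ)
    (c f N lam : ℕ) : Prop where
  card : Fintype.card κ = c ^ f
  admissible : ∀ i, (C i).IsAdmissible
  pos : 0 < N
  dvd : ∀ i, (C i).N ∣ N
  small : IsSmall C c f N lam

section geometry

variable {κ : Type} [Field κ] {𝒱 : VarClass κ} {A : TheoryData.{0, 0, 0} 𝒱 ℚ} {K : Type} [Field K]

/-- The span of the classes of cycles on `X`. -/
def cycleSpan (H : WeilTheoryData.{0, 0, 0} A K) (X : 𝒱.Obj) : Submodule K (H.A X) :=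
  Submodule.span K {a | ∃ (i : ℕ) (z : A.A X), A.Deg i z ∧ a = H.cl z}

/-- `X`, with the Frobenius endomorphism `φ`, is a model of the covering `C`, with a generator `g` of
the covering group. -/
def IsModel [Fintype κ] (C : Covering κ) (H : WeilTheoryData.{0, 0, 0} A K) {X : 𝒱.Obj}
    (φ : X ⟶ X) (τ : K →+* ℂ) : Prop :=
  ∃ g : X ⟶ X, IsCoveringAlgebra C (cycleSpan H X) (H.pull φ) (H.pull g) τ

/-- There is a divisor on `X` whose power with the exponent `dim X` is not zero in the cohomology. -/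
def IsPolarized (H : WeilTheoryData.{0, 0, 0} A K) (X : 𝒱.Obj) : Prop :=
  ∃ D : A.A X, A.Deg 1 D ∧ H.cl D ^ X.dim ≠ 0

/-- The product `X i₁ × (X i₂ × (⋯ × Z))`. -/
noncomputable def productOf {ι : Type} (X : ι → 𝒱.Obj) (Z : 𝒱.Obj) : List ι → 𝒱.Obj
  | [] => Z
  | i :: L => (X i).prod (productOf X Z L)

/-- The sum of the dimensions of the `X i`. -/
def dimension {ι : Type} (X : ι → 𝒱.Obj) : List ι → ℕ
  | [] => 0
  | i :: L => (X i).dim + dimension X L

/-- `F` is the Frobenius endomorphism of the varieties over `κ`, the varieties `X i` are models of the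
coverings, and `Z` and the polynomial `χ` satisfy `IsGoodBase`. -/
structure IsCoveringSystem [Fintype κ] [CharZero K] {ι : Type} (C : ι → Covering κ) (N lam : ℕ)
    (H : WeilTheoryData.{0, 0, 0} A K) (τ : K →+* ℂ) (F : ∀ X : 𝒱.Obj, X ⟶ X) (X : ι → 𝒱.Obj)
    (Z : 𝒱.Obj) (χ : ℚ[X]) : Prop where
  standard : IsStandard H
  frobenius : ∀ X, IsFrobenius A (F X) (Fintype.card κ)
  product : ∀ X Y, F (X.prod Y) = prodMap (F X) (F Y)
  model : ∀ i, IsModel (C i) H (F (X i)) τ
  polarized : ∀ i, IsPolarized H (X i)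
  algebraic : ∀ b ∈ eigenvaluesOf (H.pull (F Z)) τ, IsAlgebraic ℚ b
  ne_zero : χ.coeff 0 ≠ 0
  base : IsGoodBase (Fintype.card κ) N lam (productsOf (H.pull (F Z)) χ τ)

/-- The operation of the Frobenius endomorphism of `X` on the theory `T`. -/
noncomputable def frobOn (T : MotivicData A) (F : ∀ X : 𝒱.Obj, X ⟶ X) (X : 𝒱.Obj) (t : T.M X) :
    T.M X :=
  T.app (A.down (Obj.lift (F X) (𝟙 X)) 1) t

/-- The maps `φ` commute with the operation of correspondences. -/
def IsCommuting (T : MotivicData A) (φ : ∀ X, T.M X →ₗ[ℚ] T.M X) : Prop :=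
  ∀ {X Y : 𝒱.Obj} (Γ : A.A (X.prod Y)) (t : T.M X), φ Y (T.app Γ t) = T.app Γ (φ X t)

/-- The product of `φ` and the Frobenius endomorphism of `X` is `q ^ n` on `T^n(X)`. -/
def IsPower (T : MotivicData A) (φ : ∀ X, T.M X →ₗ[ℚ] T.M X) (F : ∀ X : 𝒱.Obj, X ⟶ X) (q : ℕ) :
    Prop :=
  ∀ {X : 𝒱.Obj} {n : ℤ} {t : T.M X}, T.Deg n t → frobOn T F X (φ X t) = (q : ℚ) ^ n • t

/-- `χ (φ) t = 0`. -/
def IsKilled {M : Type} [AddCommGroup M] [Module ℚ M] (φ : M →ₗ[ℚ] M) (χ : ℚ[X]) (t : M) : Prop :=
  aeval φ χ t = 0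

/-- `T` is a theory with correspondences with an endomorphism `φ` (the Frobenius endomorphism of a
scheme `U`) such that `φ` commutes with correspondences, and on `T^n(X)` the product of `φ` and the
Frobenius endomorphism of `X` is `q ^ n` and `χ (φ)` is zero. -/
structure IsRelative (T : MotivicData A) (φ : ∀ X, T.M X →ₗ[ℚ] T.M X) (F : ∀ X : 𝒱.Obj, X ⟶ X)
    (q : ℕ) (χ : ℚ[X]) : Prop where
  motivic : IsMotivic T
  comm : IsCommuting T φ
  power : IsPower T φ F q
  root : ∀ {X : 𝒱.Obj} {n : ℤ} {t : T.M X}, T.Deg n t → IsKilled (φ X) χ t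

/-- `G(X, i, w) ⊗ ℚ = T^w(X)`, `T = T (2 w - i)`: there are homomorphisms `r` from `G(X, i, w)` to
`T^w(X)` whose kernels consist of torsion elements and such that every element of `T^w(X)` has a
multiple in the image. -/
def IsIntegralForm (T : ℤ → MotivicData A) (G : 𝒱.Obj → ℤ → ℤ → Type)
    [∀ X i w, AddCommGroup (G X i w)] : Prop :=
  ∀ X i w, ∃ r : G X i w →+ (T (2 * w - i)).M X, (∀ x, (T (2 * w - i)).Deg w (r x)) ∧
    (∀ x, r x = 0 → IsOfFinAddOrder x) ∧
    ∀ t : (T (2 * w - i)).M X, (T (2 * w - i)).Deg w t →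
      ∃ (k : ℕ) (x : G X i w), 0 < k ∧ r x = k • t

/-- The groups `G / m G` and `G[m]` are finite and their orders are bounded. -/
def IsBounded (G : Type) [AddCommGroup G] : Prop :=
  ∃ C : ℕ, ∀ m : ℕ, 0 < m →
    ((nsmulAddMonoidHom m : G →+ G).range.index ≠ 0 ∧
      (nsmulAddMonoidHom m : G →+ G).range.index ≤ C) ∧
    (Finite (nsmulAddMonoidHom m : G →+ G).ker ∧ Nat.card (nsmulAddMonoidHom m : G →+ G).ker ≤ C)

/-- The known properties of the groups `G X i w = H^i((X × U)_et, ℤ(w))`, where `e = dim U`. -/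
structure IsEtale (T : ℤ → MotivicData A) (e : ℕ) (G : 𝒱.Obj → ℤ → ℤ → Type)
    [∀ X i w, AddCommGroup (G X i w)] : Prop where
  integral : IsIntegralForm T G
  bounded : ∀ (X : 𝒱.Obj) (i w : ℤ), X.dim + e ≤ w → i < 2 * w → IsBounded (G X i w)
  zeroCycles : ∀ X : 𝒱.Obj, AddGroup.FG (G X (2 * (X.dim + e)) (X.dim + e))

/-- There are finitely many cycles `D j` on `X` such that for all theories `T` as in `IsRelative`
(for all `φ` and all polynomials `χ` with roots in `B`) `T (X × V)` is the direct sum of the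
`D j × T (V)`. -/
def Decomposes (F : ∀ X : 𝒱.Obj, X ⟶ X) (q : ℕ) (B : Set K) [CharZero K] (X V : 𝒱.Obj) : Prop :=
  ∃ (J : Type) (_ : Fintype J) (deg : J → ℕ) (D : J → A.A X), (∀ j, A.Deg (deg j) (D j)) ∧
    ∀ (T : MotivicData A) (φ : ∀ X, T.M X →ₗ[ℚ] T.M X) (χ : ℚ[X]), χ.coeff 0 ≠ 0 →
      (∀ ρ : K, aeval ρ χ = 0 → ρ ∈ B) → IsRelative T φ F q χ → HasKunneth T X V deg D

/-- The group `H^i((V × U)_et, ℤ(D))`, `D = dim V + e`, is finitely generated. -/
def TopFG (e : ℕ) (G : 𝒱.Obj → ℤ → ℤ → Type) [∀ X i w, AddCommGroup (G X i w)] (V : 𝒱.Obj)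
    (i : ℤ) : Prop :=
  AddGroup.FG (G V i (V.dim + e))

/-- The group `H^i((ℙ^d × Z × U)_et, ℤ(d + dim Z + e))` is finitely generated, in terms of the groups for
`Z × U` (projective bundle formula). -/
def BundleFG (e : ℕ) (G : 𝒱.Obj → ℤ → ℤ → Type) [∀ X i w, AddCommGroup (G X i w)] (d : ℕ)
    (Z : 𝒱.Obj) (i : ℤ) : Prop :=
  ∀ l : ℕ, l ≤ d → AddGroup.FG (G Z (i - 2 * (d - l)) (Z.dim + e + l))

/-- The conclusions for the product `V` of the `X i` with `i ∈ L` and of `Z`. -/
structure Conclusions (F : ∀ X : 𝒱.Obj, X ⟶ X) (q : ℕ) (B : Set K) [CharZero K] {ι : Type}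
    (X : ι → 𝒱.Obj) (Z : 𝒱.Obj) (e : ℕ) (G : 𝒱.Obj → ℤ → ℤ → Type)
    [∀ X i w, AddCommGroup (G X i w)] (L : List ι) : Prop where
  degree : ∀ i : ℤ, i < 2 * ((productOf X Z L).dim + e) →
    (TopFG e G (productOf X Z L) i ↔ BundleFG e G (dimension X L) Z i)
  finite : ∀ i : ℤ, i < 2 * ((productOf X Z L).dim + e) → TopFG e G (productOf X Z L) i →
    Finite (G (productOf X Z L) i ((productOf X Z L).dim + e))
  all : (∀ i : ℤ, i ≤ 2 * ((productOf X Z L).dim + e) → TopFG e G (productOf X Z L) i) ↔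
    ∀ i : ℤ, i < 2 * ((productOf X Z L).dim + e) → BundleFG e G (dimension X L) Z i
  window : (∀ i : ℤ, 0 ≤ i → i ≤ 2 * ((productOf X Z L).dim + e) →
      TopFG e G (productOf X Z L) i) ↔
    ∀ i : ℤ, 0 ≤ i → i < 2 * ((productOf X Z L).dim + e) → BundleFG e G (dimension X L) Z i
  decomposes : ∀ i, i ∉ L → Decomposes (A := A) F q B (X i) (productOf X Z L)

end geometry

end Pool.Agent.N876.TW4
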