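import Pool.Agent.N876.CG.RelApp
import Pool.Agent.W484.CK.Main
import Pool.Agent.N876.TW4.Defs

/-!
# Proof of `MP_b197b4_nt.HyperplaneCoverings`
-/

set_option autoImplicit false

open Finset Polynomial CategoryTheory AlgebraicGeometry

namespace Pool.Agent.N876.TW4

open Pool.Agent.H914 Pool.Agent.H914.VarClass Pool.Agent.H914.VarClass.Obj Pool.Agent.W492.BB
  Pool.Agent.W484.CK

variable {κ : Type} [Field κ]

theorem fg_iff {G : Type} [AddCommGroup G] (h : IsBounded G) :
    AddGroup.FG G ↔ ∀ x : G, IsOfFinAddOrder x := by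
  obtain ⟨C, hC⟩ := h
  constructor
  · intro hfg x
    by_contra hx
    have hfin : Module.Finite ℤ G := Module.Finite.iff_addGroup_fg.2 hfg
    have hx' : (Submodule.torsion ℤ G).mkQ x ≠ 0 := by
      intro h0
      rw [Submodule.mkQ_apply, Submodule.Quotient.mk_eq_zero, Submodule.mem_torsion_iff] at h0
      obtain ⟨a, ha⟩ := h0
      apply hx
      rw [isOfFinAddOrder_iff_zsmul_eq_zero]
      exact ⟨a, nonZeroDivisors.coe_ne_zero a, ha⟩
    let b := Module.Free.chooseBasis ℤ (G ⧸ Submodule.torsion ℤ G)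
    obtain ⟨i, hi⟩ : ∃ i, b.repr ((Submodule.torsion ℤ G).mkQ x) i ≠ 0 := by
      by_contra hcon
      push Not at hcon
      exact hx' (b.repr.map_eq_zero_iff.1 (Finsupp.ext hcon))
    let c : G →ₗ[ℤ] ℤ := (Finsupp.lapply i) ∘ₗ b.repr.toLinearMap ∘ₗ (Submodule.torsion ℤ G).mkQ
    have hc : c x ≠ 0 := hi
    set N := (C.factorial : ℤ) with hN
    have hN0 : N ≠ 0 := by
      rw [hN]
      exact_mod_cast C.factorial_ne_zero
    have hdvd : ∀ m : ℕ, 0 < m → (m : ℤ) ∣ N * c x := by
      intro m hm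
      obtain ⟨⟨h1, h2⟩, -⟩ := hC m hm
      have h3 : (nsmulAddMonoidHom m : G →+ G).range.index • x ∈
          (nsmulAddMonoidHom m : G →+ G).range := by
        have : (nsmulAddMonoidHom m : G →+ G).range.FiniteIndex := ⟨h1⟩
        exact AddSubgroup.nsmul_index_mem _ x
      obtain ⟨k, hk⟩ := Nat.dvd_factorial (Nat.pos_of_ne_zero h1) h2
      obtain ⟨y, hy⟩ := h3
      have h4 : m • y = (nsmulAddMonoidHom m : G →+ G).range.index • x := hy
      refine ⟨k * c y, ?_⟩
      have h5 := congrArg c h4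
      rw [map_nsmul, map_nsmul, nsmul_eq_mul, nsmul_eq_mul] at h5
      rw [hN, hk]
      push_cast
      linear_combination (-(k : ℤ)) * h5
    have h6 := hdvd ((N * c x).natAbs + 1) (Nat.succ_pos _)
    have h7 := Int.eq_zero_of_dvd_of_natAbs_lt_natAbs h6 (by
      rw [Int.natAbs_natCast]
      exact Nat.lt_succ_self _)
    rcases mul_eq_zero.1 h7 with h | h
    · exact hN0 h
    · exact hc h
  · intro ht
    have hfin : Finite G := by
      by_contra hinf
      rw [not_finite_iff_infinite] at hinf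
      obtain ⟨s, hs⟩ := Infinite.exists_subset_card_eq G (C + 1)
      let m := ∏ x ∈ s, addOrderOf x
      have hm : 0 < m := Finset.prod_pos fun x _ => (ht x).addOrderOf_pos
      obtain ⟨-, hf, hcard⟩ := hC m hm
      have h1 : ∀ x ∈ s, x ∈ (nsmulAddMonoidHom m : G →+ G).ker := by
        intro x hx
        rw [AddMonoidHom.mem_ker]
        change m • x = 0
        exact addOrderOf_dvd_iff_nsmul_eq_zero.1 (Finset.dvd_prod_of_mem _ hx)
      have h2 : s.card ≤ Nat.card (nsmulAddMonoidHom m : G →+ G).ker := by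
        let f : s → (nsmulAddMonoidHom m : G →+ G).ker := fun x => ⟨x.1, h1 x.1 x.2⟩
        have hf' : Function.Injective f := fun a b hab =>
          Subtype.ext (congrArg (fun z : (nsmulAddMonoidHom m : G →+ G).ker => (z : G)) hab)
        have h3 := Nat.card_le_card_of_injective f hf'
        rwa [Nat.card_eq_fintype_card, Fintype.card_coe] at h3
      omega
    exact inferInstance

theorem torsion_iff {𝒱 : VarClass κ} {A : TheoryData.{0, 0, 0} 𝒱 ℚ} {T : ℤ → MotivicData A}
    {G : 𝒱.Obj → ℤ → ℤ → Type} [∀ X i w, AddCommGroup (G X i w)] (h : IsIntegralForm T G)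
    (X : 𝒱.Obj) {i w k : ℤ} (hk : 2 * w - i = k) :
    (∀ x : G X i w, IsOfFinAddOrder x) ↔ (toCorr (T k)).gr X w = ⊥ := by
  subst hk
  obtain ⟨r, hr0, hr1, hr2⟩ := h X i w
  constructor
  · intro ht
    have h0 : ∀ t : (T (2 * w - i)).M X, (T (2 * w - i)).Deg w t → t = 0 := by
      intro t htn
      obtain ⟨k, x, hk, hx⟩ := hr2 t htn
      obtain ⟨m, hm, hmx⟩ := isOfFinAddOrder_iff_nsmul_eq_zero.1 (ht x)
      have h1 : m • k • t = 0 := by rw [← hx, ← map_nsmul, hmx, map_zero]
      rw [← Nat.cast_smul_eq_nsmul ℚ, ← Nat.cast_smul_eq_nsmul ℚ, smul_smul] at h1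
      refine (smul_eq_zero.1 h1).resolve_left ?_
      exact mul_ne_zero (by exact_mod_cast hm.ne') (by exact_mod_cast hk.ne')
    exact (Submodule.eq_bot_iff _).2 fun t htn => h0 t htn
  · intro hv x
    exact hr1 x ((Submodule.eq_bot_iff _).1 hv _ (hr0 x))

theorem main (c : ℕ) [Fact c.Prime] (κ : Type) [Field κ] [Fintype κ] [CharP κ c] {ι : Type}
    (C : ι → Covering κ) (f N lam : ℕ) (hC : IsSmallSystem C c f N lam)
    {𝒱 : VarClass κ} (A : TheoryData.{0, 0, 0} 𝒱 ℚ) [IsChow A] {K : Type} [Field K]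
    [IsAlgClosed K] [CharZero K] (H : WeilTheoryData.{0, 0, 0} A K) [IsWeil H] (τ : K →+* ℂ)
    (F : ∀ X : 𝒱.Obj, X ⟶ X) (X : ι → 𝒱.Obj) (Z : 𝒱.Obj) (χ : ℚ[X])
    (h : IsCoveringSystem C N lam H τ F X Z χ) (hnil : ∀ L, Nilpotence H (productOf X Z L))
    (T : ℤ → MotivicData A) (φ : ∀ k X, (T k).M X →ₗ[ℚ] (T k).M X)
    (hT : ∀ k, IsRelative (T k) (φ k) F (Fintype.card κ) χ) (e : ℕ)
    (G : 𝒱.Obj → ℤ → ℤ → Type) [∀ X i w, AddCommGroup (G X i w)] (hG : IsEtale T e G)
    (L : List ι) (hL : L.Nodup) :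
    Conclusions (A := A) F (Fintype.card κ) {ρ : K | aeval ρ χ = 0} X Z e G L := by
  obtain ⟨hf, hC, hN, hdN, hsmall⟩ := hC
  obtain ⟨hstd, hfrob, hprod, hmodel, hpol, halg, hχ0, hbase⟩ := h
  have hfin := hstd.finite
  have hf0 : 0 < f := by
    rcases Nat.eq_zero_or_pos f with h | h
    · rw [h, pow_zero] at hf
      have := Fintype.one_lt_card (α := κ)
      omega
    · exact h
  choose g T' hσT hgT hT' hcov hpure using hmodel
  have hsmall' : ∀ I : Finset ι, I.Nonempty → Pool.Agent.N876.UV.SmallI c f N lam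
      (fun i => (C i).N) (fun i => (C i).n) (fun i => (C i).s) (fun i => (C i).a) I := by
    intro I hI j hj
    obtain ⟨u, hu, hlt⟩ := hsmall I hI j hj
    refine ⟨u, hu, Pool.Agent.N876.UV.weight_conv' hf0 hN hdN I
      (fun i => ∑ k, ∑ t ∈ range f, (u * j i * (C i).a k * c ^ t) % (C i).N) ?_⟩
    refine lt_of_le_of_lt (le_of_eq ?_) hlt
    congr 1
    refine sum_congr rfl fun i _ => ?_
    unfold Covering.weight
    push_cast
    rfl
  have hcov' : ∀ i, Pool.Agent.N876.TC.IsCov (C i).N (C i).l (C i).a (C i).z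
      ((ofHom (H.pull (F (X i)))).restrict (hσT i)) ((ofHom (H.pull (g i))).restrict (hgT i)) :=
    fun i => ⟨(hcov i).commute, (hcov i).order, (hcov i).invariants,
      fun L _ _ _ t => (hcov i).lefschetz L t⟩
  have hres : ∀ SZ, Pool.Agent.N876.FL.OtherOK τ (Fintype.card κ) N lam SZ →
      Pool.Agent.N876.FL.NoResF (Fintype.card κ : K)
        (fun i => {α | Module.End.HasEigenvalue
          ((ofHom (H.pull (F (X i)))).restrict (hσT i)) α}) SZ :=
    fun SZ hSZ => Pool.Agent.N876.FL.nores_cov hN (fun i => (hC i).two_le) hdN κ hf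
      (fun i => (hC i).root) (fun i => (C i).l) (fun i => (C i).a) (fun i => (hC i).coprime) τ
      hcov' hsmall' hpure hSZ
  have htw : ∀ L : List ι, productOf X Z L = Pool.Agent.N876.CG.tw X Z L := by
    intro L
    induction L with
    | nil => rfl
    | cons i L ih => rw [productOf, Pool.Agent.N876.CG.tw, ih]
  have hdim : ∀ L : List ι, dimension X L = Pool.Agent.N876.CG.dims X L := by
    intro L
    induction L with
    | nil => rfl
    | cons i L ih => rw [dimension, Pool.Agent.N876.CG.dims, ih]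
  have hq0 : Fintype.card κ ≠ 0 := Fintype.card_ne_zero
  have hsys : Pool.Agent.N876.CG.Cr H F (Fintype.card κ) X Z
      (fun i => {α | Module.End.HasEigenvalue
          ((ofHom (H.pull (F (X i)))).restrict (hσT i)) α}) {ρ | aeval ρ χ = 0} :=
    { std := isStandard_bridge hstd
      one_lt := Fintype.one_lt_card
      frob := fun X => isFrobenius_bridge (hfrob X)
      prod := hprod
      cg := fun i => ⟨T' i, hσT i, hT' i, fun α hα => hα⟩
      int := fun i α hα => Pool.Agent.N876.CG.int_cov hN (fun i => (hC i).two_le) hdN κ hf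
        (fun i => (hC i).root) (fun i => (C i).l) (fun i => (C i).a) (fun i => (hC i).coprime) τ
        hcov' hsmall' hpure i α hα
      ne := fun i α hα h0 => by
        have h1 := hpure i α hα
        rw [h0, map_zero, norm_zero, zero_pow two_ne_zero] at h1
        have h2 : (0 : ℝ) < (Fintype.card κ : ℝ) := by exact_mod_cast Nat.pos_of_ne_zero hq0
        exact (pow_pos h2 _).ne h1
      intZ := fun β hβ => Pool.Agent.N876.CG.integral_of_emb τ (halg _ ⟨β, hβ, rfl⟩)
      res := by
        have himg : (τ '' {γ | ∃ β ρ, (Pool.Agent.W484.CH.frob H (F Z)).HasEigenvalue β ∧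
            ρ ∈ {ρ : K | aeval ρ χ = 0} ∧ γ = β * ρ}) = productsOf (H.pull (F Z)) χ τ := by
          ext b
          constructor
          · rintro ⟨_, ⟨β, ρ, hβ, hρ, rfl⟩, rfl⟩
            exact ⟨β, ρ, hβ, hρ, rfl⟩
          · rintro ⟨β, ρ, hβ, hρ, rfl⟩
            exact ⟨_, ⟨β, ρ, hβ, hρ, rfl⟩, rfl⟩
        refine hres _ ⟨?_, ?_⟩
        · rintro _ ⟨β, ρ, hβ, hρ, rfl⟩
          exact hbase.1 _ ⟨β, ρ, hβ, hρ, rfl⟩
        · rcases hbase.2 with h | h
          · left
            rw [himg]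
            exact h
          · right
            rintro _ ⟨β, ρ, hβ, hρ, rfl⟩
            exact h _ ⟨β, ρ, hβ, hρ, rfl⟩
      res1 := hres _ (Pool.Agent.N876.FL.otherOK_one τ _ _ _) }
  have hrel : ∀ (T : MotivicData A) (φ : ∀ X, T.M X →ₗ[ℚ] T.M X) (χ : ℚ[X]),
      IsRelative T φ F (Fintype.card κ) χ →
      Pool.Agent.N876.CG.RelTheory (toCorr T) φ F (Fintype.card κ) χ := fun T φ χ hT =>
    { corr := toCorr_isCorrTheory hT.motivic
      comm := hT.comm
      power := fun X n t ht => ⟨1, by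
        rw [pow_one, LinearMap.sub_apply, Module.End.mul_apply, LinearMap.smul_apply,
          Module.End.one_apply, sub_eq_zero]
        exact hT.power ht⟩
      poly := fun X n t ht => hT.root ht }
  have hnil' : ∀ (T : MotivicData A), IsMotivic T → ∀ L,
      Pool.Agent.N876.CG.NilT H (toCorr T) (Pool.Agent.N876.CG.tw X Z L) := fun T hT L =>
    Pool.Agent.N876.CG.nilT_of (toCorr_isCorrTheory hT) (by
      rw [← htw L]; exact nilpotence_bridge (hnil L))
  have hdimV : (productOf X Z L).dim = dimension X L + Z.dim := by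
    clear hL
    induction L with
    | nil => rw [productOf, dimension, zero_add]
    | cons i L ih => rw [productOf, dimension, Obj.dim_prod, ih, add_assoc]
  have hv : ∀ (k n : ℤ), (toCorr (T k)).gr (productOf X Z L) n = ⊥ ↔
      ∀ l : ℤ, n - dimension X L ≤ l → l ≤ n → (toCorr (T k)).gr Z l = ⊥ := by
    intro k n
    rw [htw L, hdim L]
    exact hsys.induct hpol (fun V n => (toCorr (T k)).gr V n = ⊥) (toCorr (T k)) (φ k) χ hχ0
      (fun ρ hρ => hρ) (hrel (T k) (φ k) χ (hT k)) (hnil' (T k) (hT k).motivic)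
      (fun i V J _ deg D E h1 h2 n =>
        Pool.Agent.N876.CG.vanish_deg h1 (toCorr_isCorrTheory (hT k).motivic) h2 n) hL n
  have hdeg : ∀ i : ℤ, i < 2 * ((productOf X Z L).dim + e) →
      (TopFG e G (productOf X Z L) i ↔ BundleFG e G (dimension X L) Z i) := by
    intro i hi
    unfold TopFG BundleFG
    rw [fg_iff (hG.bounded _ i _ le_rfl hi), torsion_iff hG.integral _ rfl, hv]
    have hD : ((productOf X Z L).dim : ℤ) = dimension X L + Z.dim := by
      rw [hdimV]
      push_cast
      ring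
    rw [hD] at hi ⊢
    constructor
    · intro h0 l hl
      rw [fg_iff (hG.bounded _ _ _ (by omega) (by omega)),
        torsion_iff hG.integral _ (k := 2 * ((dimension X L : ℤ) + Z.dim + e) - i) (by omega)]
      exact h0 _ (by omega) (by omega)
    · intro h0 m hm1 hm2
      obtain ⟨l, hl⟩ := Int.eq_ofNat_of_zero_le (show 0 ≤ m - ((Z.dim : ℤ) + e) by omega)
      have h1 := h0 l (by omega)
      rw [fg_iff (hG.bounded _ _ _ (by omega) (by omega)),
        torsion_iff hG.integral _ (k := 2 * ((dimension X L : ℤ) + Z.dim + e) - i)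
          (by omega)] at h1
      have h2 : (Z.dim : ℤ) + e + l = m := by omega
      rwa [h2] at h1
  refine ⟨hdeg, fun i hi hfg => ?_, ?_, ?_, fun i hi => ?_⟩
  · have hb := hG.bounded (productOf X Z L) i _ le_rfl hi
    have : AddGroup.FG (G (productOf X Z L) i ((productOf X Z L).dim + e)) := hfg
    exact AddCommGroup.finite_of_fg_torsion (hG := (fg_iff hb).1 hfg)
  · constructor
    · intro h0 i hi
      exact (hdeg i hi).1 (h0 i hi.le)
    · intro h0 i hi
      rcases lt_or_eq_of_le hi with h1 | h1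
      · exact (hdeg i h1).2 (h0 i h1)
      · rw [h1]
        exact hG.zeroCycles _
  · constructor
    · intro h0 i hi0 hi
      exact (hdeg i hi).1 (h0 i hi0 hi.le)
    · intro h0 i hi0 hi
      rcases lt_or_eq_of_le hi with h1 | h1
      · exact (hdeg i h1).2 (h0 i hi0 h1)
      · rw [h1]
        exact hG.zeroCycles _
  · rw [htw L]
    obtain ⟨J, hJ, deg, D, E, h1, h2, h3⟩ := hsys.step hi hL
    exact ⟨J, hJ, deg, D, h1.left, fun T φ χ hχ0 hχ hT =>
      h3 _ φ χ hχ0 hχ (hrel T φ χ hT) (hnil' T hT.motivic (i :: L))⟩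

end Pool.Agent.N876.TW4
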